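import Mathlib

/-!
# MP_1dc069_an: maximal lineability of Pringsheim singular functions over the reals
-/

namespace Pool.Agent.Results.MP_1dc069_an.Pringsheim

open Set Filter Topology
open scoped ContDiff

/-- extension by zero of a function on `I` -/
noncomputable def ext0 (I : Set ℝ) (f : I → ℝ) : ℝ → ℝ := Function.extend Subtype.val f 0

lemma ext0_apply {I : Set ℝ} (f : I → ℝ) (x : I) : ext0 I f x = f x :=
  Subtype.val_injective.extend_apply f 0 x

lemma ext0_add {I : Set ℝ} (f g : I → ℝ) : ext0 I (f + g) = ext0 I f + ext0 I g := by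
  unfold ext0
  rw [← Function.extend_add]
  simp

lemma ext0_smul {I : Set ℝ} (c : ℝ) (f : I → ℝ) : ext0 I (c • f) = c • ext0 I f := by
  unfold ext0
  rw [← Function.extend_smul]
  simp

/-- The real vector space `C^∞(I)` of infinitely differentiable functions `I → ℝ` (one-sided
derivatives at the endpoints of `I` in `I`). -/
noncomputable def CInf (I : Set ℝ) : Submodule ℝ (I → ℝ) where
  carrier := {f | ContDiffOn ℝ ∞ (ext0 I f) I}
  add_mem' := by
    intro f g hf hg
    show ContDiffOn ℝ ∞ (ext0 I (f + g)) I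
    rw [ext0_add]
    exact ContDiffOn.add hf hg
  zero_mem' := by
    show ContDiffOn ℝ ∞ (ext0 I 0) I
    have : ext0 I 0 = 0 := by
      unfold ext0
      ext x
      by_cases h : ∃ a : I, (a : ℝ) = x
      · obtain ⟨a, rfl⟩ := h
        rw [Subtype.val_injective.extend_apply]; rfl
      · rw [Function.extend_apply' _ _ _ h]
    rw [this]
    exact contDiffOn_const
  smul_mem' := by
    intro c f hf
    show ContDiffOn ℝ ∞ (ext0 I (c • f)) I
    rw [ext0_smul]
    exact ContDiffOn.const_smul c hf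

/-- the radius of convergence of the Taylor series of `f` at `x` -/
noncomputable def rho (I : Set ℝ) (f : CInf I) (x : I) : ENNReal :=
  (FormalMultilinearSeries.ofScalars ℝ
    (fun n : ℕ => iteratedDerivWithin n (ext0 I f) I x / (n.factorial : ℝ))).radius

/-- the set of Pringsheim singular functions -/
def PS (I : Set ℝ) : Set (CInf I) := {f | ∀ x : I, rho I f x = 0}

/-! ### the frequencies -/

/-- the frequencies -/
def b : ℕ → ℕ
  | 0 => 1
  | (j + 1) => (j + 1) ^ (j + 1) * (2 * j + 4).factorial * (b j) ^ (2 * j + 4)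

lemma b_pos (j : ℕ) : 1 ≤ b j := by
  induction j with
  | zero => simp [b]
  | succ j ih =>
    unfold b
    have h1 : 1 ≤ (j + 1) ^ (j + 1) := Nat.one_le_pow _ _ (by omega)
    have h2 : 1 ≤ (2 * j + 4).factorial := Nat.factorial_pos _
    have h3 : 1 ≤ (b j) ^ (2 * j + 4) := Nat.one_le_pow _ _ ih
    exact Nat.mul_pos (Nat.mul_pos h1 h2) h3

lemma b_mono : Monotone b := by
  apply monotone_nat_of_le_succ
  intro j
  show b j ≤ (j + 1) ^ (j + 1) * (2 * j + 4).factorial * (b j) ^ (2 * j + 4)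
  have h1 : 1 ≤ (j + 1) ^ (j + 1) := Nat.one_le_pow _ _ (by omega)
  have h2 : 1 ≤ (2 * j + 4).factorial := Nat.factorial_pos _
  have h3 : b j ≤ (b j) ^ (2 * j + 4) := Nat.le_self_pow (by omega) _
  calc b j ≤ (b j) ^ (2 * j + 4) := h3
    _ = 1 * (b j) ^ (2 * j + 4) := (one_mul _).symm
    _ ≤ _ := Nat.mul_le_mul_right _ (Nat.mul_pos h1 h2)

lemma bR_pos (j : ℕ) : (1:ℝ) ≤ b j := by exact_mod_cast b_pos j

/-! ### the lacunary series -/

/-- the `n`-th term -/
noncomputable def term (W : ℕ → ℝ) (n : ℕ) (x : ℝ) : ℝ :=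
  W n / (b n : ℝ) ^ (2 * n) * Real.cos (b n * x)

/-- the sum -/
noncomputable def F (W : ℕ → ℝ) (x : ℝ) : ℝ := ∑' n, term W n x

lemma iteratedDeriv_cos_mul (β : ℝ) (k : ℕ) :
    iteratedDeriv k (fun x : ℝ => Real.cos (β * x))
      = fun x => β ^ k * Real.cos (β * x + k * (Real.pi / 2)) := by
  induction k with
  | zero => ext x; simp
  | succ k ih =>
    rw [iteratedDeriv_succ, ih]
    ext x
    have h1 : HasDerivAt (fun x : ℝ => β * x + k * (Real.pi / 2)) β x := by
      have := ((hasDerivAt_id' x).const_mul β).add_const (k * (Real.pi / 2))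
      exact this.congr_deriv (mul_one β)
    have h2 := (h1.cos.const_mul (β ^ k)).deriv
    rw [h2]
    push_cast
    have e : β * x + (k + 1) * (Real.pi / 2) = (β * x + k * (Real.pi / 2)) + Real.pi / 2 := by ring
    rw [e, Real.cos_add_pi_div_two]
    ring

lemma term_iteratedDeriv (W : ℕ → ℝ) (n k : ℕ) (x : ℝ) :
    iteratedDeriv k (term W n) x
      = W n * ((b n : ℝ) ^ k / (b n : ℝ) ^ (2 * n)) * Real.cos (b n * x + k * (Real.pi / 2)) := by
  have e : term W n = fun x => W n / (b n : ℝ) ^ (2 * n) * (fun x => Real.cos (b n * x)) x := rfl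
  rw [e, iteratedDeriv_const_mul_field, iteratedDeriv_cos_mul]
  ring

lemma term_contDiff (W : ℕ → ℝ) (n : ℕ) : ContDiff ℝ ∞ (term W n) := by
  unfold term
  fun_prop

lemma ratio_le (n k : ℕ) : (b n : ℝ) ^ k / (b n : ℝ) ^ (2 * n) ≤ (b k : ℝ) ^ k := by
  have hb := bR_pos n
  have hbk := bR_pos k
  rcases le_total k (2 * n) with h | h
  · have h1 : (b n : ℝ) ^ k / (b n : ℝ) ^ (2 * n) ≤ 1 := by
      rw [div_le_one (by positivity)]
      exact pow_le_pow_right₀ hb h
    exact h1.trans (one_le_pow₀ hbk)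
  · have h1 : (b n : ℝ) ^ k / (b n : ℝ) ^ (2 * n) ≤ (b n : ℝ) ^ k :=
      div_le_self (by positivity) (one_le_pow₀ hb)
    have h2 : (b n : ℝ) ≤ b k := by exact_mod_cast b_mono (by omega)
    exact h1.trans (pow_le_pow_left₀ (by positivity) h2 k)

lemma term_bound {W : ℕ → ℝ} {C τ : ℝ} (hW : ∀ n, |W n| ≤ C * τ ^ n) (n k : ℕ) (x : ℝ) :
    |iteratedDeriv k (term W n) x| ≤ (C * τ ^ n) * (b k : ℝ) ^ k := by
  rw [term_iteratedDeriv, abs_mul, abs_mul]
  have hb := bR_pos n
  have h1 : |(b n : ℝ) ^ k / (b n : ℝ) ^ (2 * n)| ≤ (b k : ℝ) ^ k := by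
    rw [abs_of_nonneg (by positivity)]; exact ratio_le n k
  have h2 := Real.abs_cos_le_one (b n * x + k * (Real.pi / 2))
  have h3 := hW n
  have h0 : 0 ≤ C * τ ^ n := (abs_nonneg _).trans h3
  calc |W n| * |(b n : ℝ) ^ k / (b n : ℝ) ^ (2 * n)| * |Real.cos (b n * x + k * (Real.pi / 2))|
      ≤ |W n| * |(b n : ℝ) ^ k / (b n : ℝ) ^ (2 * n)| * 1 :=
        mul_le_mul_of_nonneg_left h2 (by positivity)
    _ = |W n| * |(b n : ℝ) ^ k / (b n : ℝ) ^ (2 * n)| := mul_one _
    _ ≤ (C * τ ^ n) * (b k : ℝ) ^ k := mul_le_mul h3 h1 (abs_nonneg _) h0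

section series
variable {W : ℕ → ℝ} {C τ : ℝ} (hτ0 : 0 ≤ τ) (hτ1 : τ < 1) (hW : ∀ n, |W n| ≤ C * τ ^ n)
include hτ0 hτ1 hW

omit hW in
lemma summ (k : ℕ) : Summable fun n => (C * τ ^ n) * (b k : ℝ) ^ k :=
  ((summable_geometric_of_lt_one hτ0 hτ1).mul_left C).mul_right _

lemma F_contDiff : ContDiff ℝ ∞ (F W) := by
  refine contDiff_tsum (v := fun k n => (C * τ ^ n) * (b k : ℝ) ^ k)
    (fun n => term_contDiff W n) (fun k _ => summ hτ0 hτ1 k) ?_
  intro k n x _
  rw [norm_iteratedFDeriv_eq_norm_iteratedDeriv, Real.norm_eq_abs]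
  exact term_bound hW n k x

lemma F_iteratedDeriv (k : ℕ) (x : ℝ) :
    iteratedDeriv k (F W) x = ∑' n, iteratedDeriv k (term W n) x := by
  have h := iteratedFDeriv_tsum_apply (𝕜 := ℝ) (N := ⊤) (f := fun n => term W n)
    (v := fun k n => (C * τ ^ n) * (b k : ℝ) ^ k)
    (fun n => term_contDiff W n) (fun k _ => summ hτ0 hτ1 k) (by
      intro k n x _
      rw [norm_iteratedFDeriv_eq_norm_iteratedDeriv, Real.norm_eq_abs]
      exact term_bound hW n k x) (k := k) le_top x
  have h2 := congrArg (fun L : ContinuousMultilinearMap ℝ (fun _ : Fin k => ℝ) ℝ =>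
    L (fun _ => 1)) h
  rw [iteratedDeriv_eq_iteratedFDeriv]
  have h3 : F W = fun y => ∑' n, term W n y := rfl
  rw [h3, h2]
  have hs : Summable fun n => iteratedFDeriv ℝ k (term W n) x := by
    refine Summable.of_norm_bounded (summ (C := C) hτ0 hτ1 k) fun n => ?_
    rw [norm_iteratedFDeriv_eq_norm_iteratedDeriv, Real.norm_eq_abs]
    exact term_bound hW n k x
  rw [ContinuousMultilinearMap.tsum_eval hs]
  rfl

lemma term_summable (k : ℕ) (x : ℝ) : Summable fun n => iteratedDeriv k (term W n) x := by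
  refine Summable.of_norm_bounded (summ (C := C) hτ0 hτ1 k) fun n => ?_
  rw [Real.norm_eq_abs]
  exact term_bound hW n k x

/-- lower bound for one of two consecutive derivatives -/
lemma lower (hC : 0 ≤ C) {j : ℕ} {om : ℝ} (_hom : 0 ≤ om) (hWj : om ≤ |W (j + 1)|) (x : ℝ) :
    ∃ k, k ≤ 2 * j + 4 ∧ 1 ≤ k ∧
      om * b (j + 1) / 2 - (j + 1) * C * (b j : ℝ) ^ (2 * j + 4) - C / (1 - τ)
        ≤ |iteratedDeriv k (F W) x| := by
  set β : ℝ := ((b (j + 1) : ℕ) : ℝ) with hβ
  have hβ1 : 1 ≤ β := bR_pos (j + 1)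
  -- choice of `k`
  obtain ⟨k, hk1, hk2, hcos⟩ : ∃ k, 2 * j + 3 ≤ k ∧ k ≤ 2 * j + 4 ∧
      1 / 2 ≤ |Real.cos (β * x + k * (Real.pi / 2))| := by
    by_cases h : 1 / 2 ≤ |Real.cos (β * x + ((2 * j + 3 : ℕ) : ℝ) * (Real.pi / 2))|
    · exact ⟨2 * j + 3, le_rfl, by omega, h⟩
    · refine ⟨2 * j + 4, by omega, le_rfl, ?_⟩
      push Not at h
      have e : β * x + ((2 * j + 4 : ℕ) : ℝ) * (Real.pi / 2)
          = (β * x + ((2 * j + 3 : ℕ) : ℝ) * (Real.pi / 2)) + Real.pi / 2 := by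
        push_cast; ring
      rw [e, Real.cos_add_pi_div_two, abs_neg]
      set θ := β * x + ((2 * j + 3 : ℕ) : ℝ) * (Real.pi / 2)
      by_contra h2
      push Not at h2
      have h3 : Real.cos θ ^ 2 < 1 / 4 := by
        have := sq_abs (Real.cos θ)
        nlinarith [abs_nonneg (Real.cos θ)]
      have h4 : Real.sin θ ^ 2 < 1 / 4 := by
        have := sq_abs (Real.sin θ)
        nlinarith [abs_nonneg (Real.sin θ)]
      linarith [Real.sin_sq_add_cos_sq θ]
  refine ⟨k, hk2, by omega, ?_⟩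
  rw [F_iteratedDeriv hτ0 hτ1 hW]
  have hs := term_summable hτ0 hτ1 hW k x
  rw [← hs.sum_add_tsum_nat_add (j + 2), Finset.sum_range_succ]
  -- main term
  have hmain : om * β / 2 ≤ |iteratedDeriv k (term W (j + 1)) x| := by
    rw [term_iteratedDeriv, abs_mul, abs_mul, ← hβ]
    have h1 : β ≤ |β ^ k / β ^ (2 * (j + 1))| := by
      rw [abs_of_nonneg (by positivity), le_div_iff₀ (by positivity)]
      calc β * β ^ (2 * (j + 1)) = β ^ (2 * j + 3) := by rw [← pow_succ']; congr 1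
        _ ≤ β ^ k := pow_le_pow_right₀ hβ1 hk1
    calc om * β / 2 = (om * β) * (1 / 2) := by ring
      _ ≤ (|W (j + 1)| * |β ^ k / β ^ (2 * (j + 1))|)
          * |Real.cos (β * x + k * (Real.pi / 2))| := by
        apply mul_le_mul _ hcos (by norm_num) (by positivity)
        exact mul_le_mul hWj h1 (by positivity) (abs_nonneg _)
  -- lower terms
  have hlow : |∑ n ∈ Finset.range (j + 1), iteratedDeriv k (term W n) x|
      ≤ (j + 1) * C * (b j : ℝ) ^ (2 * j + 4) := by
    refine (Finset.abs_sum_le_sum_abs _ _).trans ?_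
    have h1 : ∀ n ∈ Finset.range (j + 1), |iteratedDeriv k (term W n) x|
        ≤ C * (b j : ℝ) ^ (2 * j + 4) := by
      intro n hn
      rw [Finset.mem_range] at hn
      rw [term_iteratedDeriv, abs_mul, abs_mul]
      have hbn := bR_pos n
      have hbj := bR_pos j
      have hnj : (b n : ℝ) ≤ b j := by exact_mod_cast b_mono (by omega)
      have h2 : |(b n : ℝ) ^ k / (b n : ℝ) ^ (2 * n)| ≤ (b j : ℝ) ^ (2 * j + 4) := by
        rw [abs_of_nonneg (by positivity)]
        calc (b n : ℝ) ^ k / (b n : ℝ) ^ (2 * n) ≤ (b n : ℝ) ^ k :=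
              div_le_self (by positivity) (one_le_pow₀ hbn)
          _ ≤ (b j : ℝ) ^ k := pow_le_pow_left₀ (by positivity) hnj k
          _ ≤ (b j : ℝ) ^ (2 * j + 4) := pow_le_pow_right₀ hbj hk2
      have h3 : |W n| ≤ C := (hW n).trans (mul_le_of_le_one_right hC (pow_le_one₀ hτ0 hτ1.le))
      have h4 := Real.abs_cos_le_one (b n * x + k * (Real.pi / 2))
      calc |W n| * |(b n : ℝ) ^ k / (b n : ℝ) ^ (2 * n)|
            * |Real.cos (b n * x + k * (Real.pi / 2))|
          ≤ |W n| * |(b n : ℝ) ^ k / (b n : ℝ) ^ (2 * n)| * 1 :=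
            mul_le_mul_of_nonneg_left h4 (by positivity)
        _ = |W n| * |(b n : ℝ) ^ k / (b n : ℝ) ^ (2 * n)| := mul_one _
        _ ≤ C * (b j : ℝ) ^ (2 * j + 4) := mul_le_mul h3 h2 (abs_nonneg _) hC
    refine (Finset.sum_le_sum h1).trans ?_
    rw [Finset.sum_const, Finset.card_range, nsmul_eq_mul]
    push_cast
    linarith
  -- tail
  have htail : |∑' n, iteratedDeriv k (term W (n + (j + 2))) x| ≤ C / (1 - τ) := by
    have h1 : ∀ n, |iteratedDeriv k (term W (n + (j + 2))) x| ≤ C * τ ^ n := by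
      intro n
      rw [term_iteratedDeriv, abs_mul, abs_mul]
      have hbn := bR_pos (n + (j + 2))
      have h2 : |(b (n + (j + 2)) : ℝ) ^ k / (b (n + (j + 2)) : ℝ) ^ (2 * (n + (j + 2)))| ≤ 1 := by
        rw [abs_of_nonneg (by positivity), div_le_one (by positivity)]
        exact pow_le_pow_right₀ hbn (by omega)
      have h3 : |W (n + (j + 2))| ≤ C * τ ^ n := by
        refine (hW _).trans ?_
        apply mul_le_mul_of_nonneg_left _ hC
        exact pow_le_pow_of_le_one hτ0 hτ1.le (by omega)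
      have h4 := Real.abs_cos_le_one (b (n + (j + 2)) * x + k * (Real.pi / 2))
      have h0 : 0 ≤ C * τ ^ n := by positivity
      calc |W (n + (j + 2))| * |(b (n + (j + 2)) : ℝ) ^ k / (b (n + (j + 2)) : ℝ) ^ (2 * (n + (j + 2)))|
            * |Real.cos (b (n + (j + 2)) * x + k * (Real.pi / 2))|
          ≤ (C * τ ^ n) * 1 * 1 := by
            apply mul_le_mul (mul_le_mul h3 h2 (abs_nonneg _) h0) h4 (abs_nonneg _)
            linarith
        _ = C * τ ^ n := by ring
    have h5 : HasSum (fun n => C * τ ^ n) (C * (1 - τ)⁻¹) :=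
      (hasSum_geometric_of_lt_one hτ0 hτ1).mul_left C
    have h6 := tsum_of_norm_bounded h5 (fun n => by rw [Real.norm_eq_abs]; exact h1 n)
    rw [Real.norm_eq_abs] at h6
    rw [div_eq_mul_inv]; exact h6
  set A := ∑ n ∈ Finset.range (j + 1), iteratedDeriv k (term W n) x
  set B := iteratedDeriv k (term W (j + 1)) x
  set D := ∑' n, iteratedDeriv k (term W (n + (j + 2))) x
  have h7 : |B| ≤ |A + B + D| + |A| + |D| := by
    have h8 : B = (A + B + D) + (-A) + (-D) := by ring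
    calc |B| = |(A + B + D) + (-A) + (-D)| := by rw [← h8]
      _ ≤ |A + B + D| + |-A| + |-D| := abs_add_three _ _ _
      _ = _ := by rw [abs_neg, abs_neg]
  linarith

/-- no Cauchy-Hadamard bound is possible -/
lemma no_bound (hC : 0 ≤ C) {δ t : ℝ} (hδ : 0 < δ) (ht : 0 < t)
    (hWl : ∀ᶠ n in atTop, δ * t ^ n ≤ |W n|) (x : ℝ) {D R : ℝ} (hD : 0 ≤ D) (hR : 1 ≤ R)
    (hbd : ∀ k, |iteratedDeriv k (F W) x| ≤ D * k.factorial * R ^ k) : False := by
  have hτ' : 0 < 1 - τ := by linarith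
  set K : ℝ := C + C / (1 - τ) + D * R ^ 2 with hK
  have hK0 : 0 ≤ K := by positivity
  have e1 : ∀ᶠ j : ℕ in atTop, δ * t ^ (j + 1) ≤ |W (j + 1)| :=
    (tendsto_add_atTop_nat 1).eventually hWl
  have e2 : ∀ᶠ j : ℕ in atTop, 4 * R ^ 2 ≤ t * ((j : ℝ) + 1) := by
    obtain ⟨N, hN⟩ := exists_nat_gt (4 * R ^ 2 / t)
    filter_upwards [eventually_ge_atTop N] with j hj
    have : (N : ℝ) ≤ j := by exact_mod_cast hj
    rw [div_lt_iff₀ ht] at hN
    nlinarith
  have e3 : ∀ᶠ j : ℕ in atTop, K < δ / 2 * 2 ^ (j + 1) := by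
    have h1 : Tendsto (fun j : ℕ => δ / 2 * (2:ℝ) ^ (j + 1)) atTop atTop :=
      ((tendsto_pow_atTop_atTop_of_one_lt (by norm_num)).comp
        (tendsto_add_atTop_nat 1)).const_mul_atTop (by positivity)
    exact h1.eventually_gt_atTop K
  obtain ⟨j, ⟨h1, h2⟩, h3⟩ := ((e1.and e2).and e3).exists
  obtain ⟨k, hk1, hk0, hk⟩ := lower hτ0 hτ1 hW hC (om := δ * t ^ (j + 1)) (by positivity) h1 x
  have hk' := hk.trans (hbd k)
  set P : ℝ := ((2 * j + 4).factorial : ℝ) * (b j : ℝ) ^ (2 * j + 4) with hP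
  have hfac : (1:ℝ) ≤ ((2 * j + 4).factorial : ℝ) := by exact_mod_cast Nat.factorial_pos _
  have hbj : (1:ℝ) ≤ (b j : ℝ) ^ (2 * j + 4) := one_le_pow₀ (bR_pos j)
  have hP1 : 1 ≤ P := by rw [hP]; exact one_le_mul_of_one_le_of_one_le hfac hbj
  have hPb : (b j : ℝ) ^ (2 * j + 4) ≤ P := by
    rw [hP]; exact le_mul_of_one_le_left (by positivity) hfac
  have hPf : ((2 * j + 4).factorial : ℝ) ≤ P := by
    rw [hP]; exact le_mul_of_one_le_right (by positivity) hbj
  have hbs : (b (j + 1) : ℝ) = ((j : ℝ) + 1) ^ (j + 1) * P := by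
    rw [hP]
    show (((j + 1) ^ (j + 1) * (2 * j + 4).factorial * (b j) ^ (2 * j + 4) : ℕ) : ℝ) = _
    push_cast
    ring
  have hkf : (k.factorial : ℝ) ≤ ((2 * j + 4).factorial : ℝ) := by
    exact_mod_cast Nat.factorial_le hk1
  have hRk : R ^ k ≤ R ^ (2 * j + 4) := pow_le_pow_right₀ hR hk1
  -- upper bound
  have hup : D * k.factorial * R ^ k ≤ P * (D * R ^ (2 * j + 4)) := by
    calc D * k.factorial * R ^ k ≤ D * P * R ^ (2 * j + 4) := by
          apply mul_le_mul _ hRk (by positivity) (by positivity)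
          exact mul_le_mul_of_nonneg_left (hkf.trans hPf) hD
      _ = _ := by ring
  have hlo : δ * t ^ (j + 1) * (b (j + 1) : ℝ) / 2
      = P * (δ / 2 * (t * ((j : ℝ) + 1)) ^ (j + 1)) := by
    rw [hbs, mul_pow]; ring
  have hmid : ((j : ℝ) + 1) * C * (b j : ℝ) ^ (2 * j + 4) + C / (1 - τ)
      ≤ P * (((j : ℝ) + 1) * C + C / (1 - τ)) := by
    have a1 : ((j : ℝ) + 1) * C * (b j : ℝ) ^ (2 * j + 4) ≤ ((j : ℝ) + 1) * C * P :=
      mul_le_mul_of_nonneg_left hPb (by positivity)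
    have a2 : C / (1 - τ) ≤ P * (C / (1 - τ)) := le_mul_of_one_le_left (by positivity) hP1
    linarith
  rw [hlo] at hk'
  have hkey : P * (δ / 2 * (t * ((j : ℝ) + 1)) ^ (j + 1))
      ≤ P * (((j : ℝ) + 1) * C + C / (1 - τ) + D * R ^ (2 * j + 4)) := by
    have : P * (((j : ℝ) + 1) * C + C / (1 - τ) + D * R ^ (2 * j + 4))
        = P * (((j : ℝ) + 1) * C + C / (1 - τ)) + P * (D * R ^ (2 * j + 4)) := by ring
    rw [this]
    linarith
  have hkey2 := le_of_mul_le_mul_left hkey (by linarith)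
  have hR2 : 1 ≤ R ^ 2 := one_le_pow₀ hR
  set S : ℝ := (2 * R ^ 2) ^ (j + 1) with hS
  have hS2 : (2:ℝ) ^ (j + 1) ≤ S := pow_le_pow_left₀ (by norm_num) (by linarith) _
  have hj2 : ((j : ℝ) + 1) ≤ 2 ^ (j + 1) := by
    have : (j + 1) < 2 ^ (j + 1) := Nat.lt_two_pow_self
    have h4 : ((j + 1 : ℕ) : ℝ) < ((2 ^ (j + 1) : ℕ) : ℝ) := by exact_mod_cast this
    push_cast at h4
    exact h4.le
  have hS1 : 1 ≤ S := one_le_pow₀ (by linarith)
  have c1 : ((j : ℝ) + 1) * C ≤ C * S := by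
    rw [mul_comm]; exact mul_le_mul_of_nonneg_left (hj2.trans hS2) hC
  have c2 : C / (1 - τ) ≤ C / (1 - τ) * S := le_mul_of_one_le_right (by positivity) hS1
  have c3 : D * R ^ (2 * j + 4) ≤ D * R ^ 2 * S := by
    have h4 : R ^ (2 * j + 4) = R ^ 2 * (R ^ 2) ^ (j + 1) := by
      rw [← pow_mul, ← pow_add]; congr 1; ring
    rw [h4, ← mul_assoc]
    apply mul_le_mul_of_nonneg_left _ (by positivity)
    exact pow_le_pow_left₀ (by positivity) (by linarith) _
  have c4 : δ / 2 * (4 * R ^ 2) ^ (j + 1) ≤ δ / 2 * (t * ((j : ℝ) + 1)) ^ (j + 1) :=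
    mul_le_mul_of_nonneg_left (pow_le_pow_left₀ (by positivity) h2 _) (by positivity)
  have c5 : (4 * R ^ 2) ^ (j + 1) = 2 ^ (j + 1) * S := by
    rw [hS, ← mul_pow]; congr 1; ring
  rw [c5] at c4
  have c6 : δ / 2 * 2 ^ (j + 1) * S ≤ K * S := by
    have : K * S = C * S + C / (1 - τ) * S + D * R ^ 2 * S := by rw [hK]; ring
    rw [this]
    linarith
  have c7 := le_of_mul_le_mul_right c6 (by linarith)
  linarith

lemma F_mem (I : Set ℝ) : (fun x : I => F W x) ∈ CInf I := by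
  show ContDiffOn ℝ ∞ (ext0 I (fun x : I => F W x)) I
  refine (F_contDiff hτ0 hτ1 hW).contDiffOn.congr fun x hx => ?_
  exact ext0_apply (fun x : I => F W x) ⟨x, hx⟩

lemma deriv_within {I : Set ℝ} (hI : I.OrdConnected) (hI' : I.Nontrivial) (x : I) (k : ℕ) :
    iteratedDerivWithin k (ext0 I (fun x : I => F W x)) I x = iteratedDeriv k (F W) x := by
  have hu : UniqueDiffOn ℝ I := by
    apply uniqueDiffOn_convex hI.convex
    obtain ⟨a, ha, b, hb, hab⟩ := hI'
    rcases lt_or_gt_of_ne hab with h | h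
    · refine (nonempty_Ioo.mpr h).mono ?_
      rw [← interior_Icc]
      exact interior_mono (hI.out ha hb)
    · refine (nonempty_Ioo.mpr h).mono ?_
      rw [← interior_Icc]
      exact interior_mono (hI.out hb ha)
  have h1 : EqOn (ext0 I (fun x : I => F W x)) (F W) I := fun y hy =>
    ext0_apply (fun x : I => F W x) ⟨y, hy⟩
  rw [iteratedDerivWithin_congr h1 x.2]
  exact iteratedDerivWithin_eq_iteratedDeriv hu
    ((F_contDiff hτ0 hτ1 hW).contDiffAt.of_le (by exact_mod_cast le_top)) x.2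

end series

/-! ### the subspace -/

abbrev J : Type := Ioo (0:ℝ) 1

lemma pow_bound (t : J) (n : ℕ) : |(t : ℝ) ^ n| ≤ 1 * (t : ℝ) ^ n := by
  rw [one_mul, abs_of_nonneg (pow_nonneg t.2.1.le n)]

/-- the basis functions -/
noncomputable def v (I : Set ℝ) (t : J) : CInf I :=
  ⟨fun x : I => F (fun n => (t : ℝ) ^ n) x, F_mem t.2.1.le t.2.2 (pow_bound t) I⟩

/-- the weight sequence of a combination -/
noncomputable def Wl (l : J →₀ ℝ) (n : ℕ) : ℝ := ∑ t ∈ l.support, l t * (t : ℝ) ^ n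

lemma linComb (I : Set ℝ) (l : J →₀ ℝ) (x : I) :
    (Finsupp.linearCombination ℝ (v I) l : CInf I).1 x = F (Wl l) x := by
  rw [Finsupp.linearCombination_apply, Finsupp.sum]
  have h1 : ((∑ t ∈ l.support, l t • v I t : CInf I) : I → ℝ) x
      = ∑ t ∈ l.support, l t * F (fun n => (t : ℝ) ^ n) x := by
    rw [Submodule.coe_sum, Finset.sum_apply]
    rfl
  rw [h1]
  unfold F
  have h2 : ∀ n, term (Wl l) n x = ∑ t ∈ l.support, l t * term (fun n => (t : ℝ) ^ n) n x := by
    intro n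
    unfold term Wl
    rw [Finset.sum_div, Finset.sum_mul]
    refine Finset.sum_congr rfl fun t _ => ?_
    ring
  have hs : ∀ t ∈ l.support, Summable fun n => l t * term (fun n => (t : ℝ) ^ n) n x := by
    intro t _
    have := term_summable t.2.1.le t.2.2 (pow_bound t) 0 x
    simp only [iteratedDeriv_zero] at this
    exact this.mul_left _
  simp only [h2]
  rw [Summable.tsum_finsetSum hs]
  refine Finset.sum_congr rfl fun t _ => ?_
  rw [tsum_mul_left]

lemma Wl_facts (l : J →₀ ℝ) (hl : l ≠ 0) : ∃ C τ δ : ℝ, 0 ≤ C ∧ 0 < τ ∧ τ < 1 ∧ 0 < δ ∧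
    (∀ n, |Wl l n| ≤ C * τ ^ n) ∧ ∀ᶠ n in atTop, δ * τ ^ n ≤ |Wl l n| := by
  have hne : l.support.Nonempty := Finsupp.support_nonempty_iff.mpr hl
  set t₀ : J := l.support.max' hne with ht₀
  have hmem : t₀ ∈ l.support := Finset.max'_mem _ _
  have hl0 : l t₀ ≠ 0 := Finsupp.mem_support_iff.mp hmem
  have hτ0 : (0:ℝ) < t₀ := t₀.2.1
  have hle : ∀ t ∈ l.support, (t : ℝ) ≤ t₀ := fun t ht => by
    exact_mod_cast Finset.le_max' _ t ht
  refine ⟨∑ t ∈ l.support, |l t|, t₀, |l t₀| / 2, Finset.sum_nonneg fun _ _ => abs_nonneg _,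
    hτ0, t₀.2.2, by positivity, ?_, ?_⟩
  · intro n
    unfold Wl
    refine (Finset.abs_sum_le_sum_abs _ _).trans ?_
    rw [Finset.sum_mul]
    refine Finset.sum_le_sum fun t ht => ?_
    rw [abs_mul, abs_of_nonneg (pow_nonneg t.2.1.le n)]
    exact mul_le_mul_of_nonneg_left (pow_le_pow_left₀ t.2.1.le (hle t ht) n) (abs_nonneg _)
  · have hlim : Tendsto (fun n : ℕ => Wl l n / (t₀ : ℝ) ^ n) atTop (𝓝 (l t₀)) := by
      have h1 : (fun n : ℕ => Wl l n / (t₀ : ℝ) ^ n)
          = fun n : ℕ => ∑ t ∈ l.support, l t * ((t : ℝ) / t₀) ^ n := by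
        ext n
        unfold Wl
        rw [Finset.sum_div]
        refine Finset.sum_congr rfl fun t _ => ?_
        rw [div_pow]; ring
      have h2 : l t₀ = ∑ t ∈ l.support, if t = t₀ then l t₀ else 0 := by
        rw [Finset.sum_ite_eq' l.support t₀ (fun _ => l t₀)]
        simp [hl0]
      rw [h1]
      conv => rhs; rw [h2]
      refine tendsto_finsetSum _ fun t ht => ?_
      by_cases h : t = t₀
      · rw [if_pos h, h]
        have : ∀ n : ℕ, l t₀ * ((t₀ : ℝ) / t₀) ^ n = l t₀ := by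
          intro n
          rw [div_self hτ0.ne', one_pow, mul_one]
        simp only [this]
        exact tendsto_const_nhds
      · rw [if_neg h]
        have hlt : (t : ℝ) < t₀ := lt_of_le_of_ne (hle t ht) (fun h' => h (Subtype.ext h'))
        have h3 : Tendsto (fun n : ℕ => ((t : ℝ) / t₀) ^ n) atTop (𝓝 0) := by
          apply tendsto_pow_atTop_nhds_zero_of_lt_one
          · exact div_nonneg t.2.1.le hτ0.le
          · rw [div_lt_one hτ0]; exact hlt
        have := h3.const_mul (l t)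
        rwa [mul_zero] at this
    have h4 := hlim.abs
    have h5 : |l t₀| / 2 < |l t₀| := by
      have := abs_pos.mpr hl0
      linarith
    filter_upwards [h4.eventually_const_lt h5] with n hn
    rw [abs_div, abs_of_pos (pow_pos hτ0 n), lt_div_iff₀ (pow_pos hτ0 n)] at hn
    exact hn.le

/-- **MP_1dc069_an, Q1.** For every nondegenerate interval `I ⊆ ℝ` there is a (real) vector
subspace `M` of `C^∞(I)` of dimension `𝔠` all of whose nonzero elements are Pringsheim
singular. -/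
theorem result (I : Set ℝ) (hI : I.OrdConnected) (hI' : I.Nontrivial) :
    ∃ M : Submodule ℝ (CInf I), Module.rank ℝ M = Cardinal.continuum ∧
      ∀ f ∈ M, f ≠ 0 → f ∈ PS I := by
  -- derivatives of a combination
  have key : ∀ l : J →₀ ℝ, l ≠ 0 → ∀ x : I, ∀ D R : ℝ, 0 ≤ D → 1 ≤ R →
      (∀ k : ℕ, |iteratedDerivWithin k
        (ext0 I (Finsupp.linearCombination ℝ (v I) l : CInf I).1) I x|
        ≤ D * k.factorial * R ^ k) → False := by
    intro l hl x D R hD hR hbd
    obtain ⟨C, τ, δ, hC, hτ0, hτ1, hδ, hW, hWl⟩ := Wl_facts l hl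
    have e : (Finsupp.linearCombination ℝ (v I) l : CInf I).1 = fun x : I => F (Wl l) x := by
      ext y; exact linComb I l y
    rw [e] at hbd
    refine no_bound hτ0.le hτ1 hW hC hδ hτ0 hWl x hD hR fun k => ?_
    rw [← deriv_within hτ0.le hτ1 hW hI hI' x k]
    exact hbd k
  have hPS : ∀ l : J →₀ ℝ, l ≠ 0 → Finsupp.linearCombination ℝ (v I) l ∈ PS I := by
    intro l hl x
    by_contra hne
    have hpos : 0 < rho I (Finsupp.linearCombination ℝ (v I) l) x := pos_iff_ne_zero.mpr hne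
    obtain ⟨r, hr0, hr1⟩ := ENNReal.lt_iff_exists_nnreal_btwn.mp hpos
    have hr0' : (0:ℝ) < r := by exact_mod_cast hr0
    obtain ⟨D, hD, hbd⟩ := FormalMultilinearSeries.norm_mul_pow_le_of_lt_radius _ hr1
    refine key l hl x D (max 1 (1 / (r : ℝ))) hD.le (le_max_left _ _) fun k => ?_
    have h1 := hbd k
    rw [FormalMultilinearSeries.ofScalars_norm, Real.norm_eq_abs, abs_div,
      abs_of_pos (show (0:ℝ) < k.factorial by exact_mod_cast Nat.factorial_pos k)] at h1
    have hfac : (0:ℝ) < k.factorial := by exact_mod_cast Nat.factorial_pos k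
    have hrk : 0 < (r : ℝ) ^ k := pow_pos hr0' k
    have h2 : |iteratedDerivWithin k
        (ext0 I (Finsupp.linearCombination ℝ (v I) l : CInf I).1) I x|
        ≤ D * k.factorial * (1 / (r : ℝ)) ^ k := by
      rw [one_div, inv_pow, ← div_eq_mul_inv, le_div_iff₀ hrk]
      rw [div_mul_eq_mul_div, div_le_iff₀ hfac] at h1
      exact h1
    refine h2.trans ?_
    apply mul_le_mul_of_nonneg_left _ (by positivity)
    exact pow_le_pow_left₀ (by positivity) (le_max_right _ _) k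
  have hli : LinearIndependent ℝ (v I) := by
    rw [linearIndependent_iff]
    intro l hl0
    by_contra hl
    obtain ⟨x, hx, -⟩ := hI'
    refine key l hl ⟨x, hx⟩ 0 1 le_rfl le_rfl fun k => ?_
    rw [hl0]
    have e : iteratedDerivWithin k (ext0 I (0 : CInf I).1) I x = 0 := by
      have h1 : EqOn (ext0 I (0 : CInf I).1) (fun _ => (0:ℝ)) I := fun y hy =>
        ext0_apply (0 : CInf I).1 ⟨y, hy⟩
      rw [iteratedDerivWithin_congr h1 hx]
      simp
    simp only [e]
    simp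
  refine ⟨Submodule.span ℝ (range (v I)), ?_, ?_⟩
  · rw [rank_span hli, Cardinal.mk_range_eq _ hli.injective]
    exact Cardinal.mk_Ioo_real one_pos
  · intro f hf hf0
    obtain ⟨l, hl⟩ := Finsupp.mem_span_range_iff_exists_finsupp.mp hf
    have hl' : Finsupp.linearCombination ℝ (v I) l = f := by
      rw [Finsupp.linearCombination_apply]; exact hl
    rw [← hl']
    apply hPS
    rintro rfl
    apply hf0
    rw [← hl']; simp

end Pool.Agent.Results.MP_1dc069_an.Pringsheim
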